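import Pool.Agent.Y522.FA.Stm2

/-!
# Project FA: the boundary in charts of the maximal atlas
-/

set_option autoImplicit false

open Set Filter Topology Metric Function MeasureTheory Bundle
open scoped Manifold ContDiff Real NNReal
open Pool.Agent.Y522.FA

noncomputable section

namespace Pool.Agent.Y878.FA

theorem int_step {E H M : Type} [NormedAddCommGroup E] [NormedSpace ℝ E] [TopologicalSpace H]
    {I : ModelWithCorners ℝ E H} [TopologicalSpace M] [ChartedSpace H M] [IsManifold I ∞ M]
    {e e' : OpenPartialHomeomorph M H} {x : M}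
    (he : e ∈ IsManifold.maximalAtlas I ∞ M) (he' : e' ∈ IsManifold.maximalAtlas I ∞ M)
    (hex : x ∈ e.source) (hex' : x ∈ e'.source)
    (hx : e.extend I x ∈ interior (e.extend I).target) :
    e'.extend I x ∈ interior (e'.extend I).target := by
  let φ := I.extendCoordChange e e'
  have hn : (∞ : WithTop ℕ∞) ≠ 0 := by simp
  have hφ : ContDiffOn ℝ ∞ φ φ.source := ModelWithCorners.contDiffOn_extendCoordChange he he'
  suffices h : Function.Surjective (fderivWithin ℝ φ φ.source (e.extend I x)) →
      e'.extend I x ∈ interior (range I) by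
    refine e'.mem_interior_extend_target (by simp [hex']) <| h ?_
    exact (ModelWithCorners.isInvertible_fderivWithin_extendCoordChange hn he he' <| by
      simp [ModelWithCorners.extendCoordChange, hex, hex']).surjective
  intro hφx'
  have hφx : φ.source ∈ 𝓝 (e.extend I x) := by
    simp_rw [φ, ModelWithCorners.extendCoordChange, PartialEquiv.trans_source,
      PartialEquiv.symm_source,
      Filter.inter_mem_iff, mem_interior_iff_mem_nhds.1 hx, true_and, e'.extend_source]
    exact e.extend_preimage_mem_nhds hex <| e'.open_source.mem_nhds hex'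
  rw [fderivWithin_of_mem_nhds <| hφx] at hφx'
  rw [show e'.extend I x = φ (e.extend I x) by
    simp [φ, ModelWithCorners.extendCoordChange, hex]]
  have hφ' := (hφ.differentiableOn hn).differentiableAt hφx
  exact hφ'.mem_interior_convex_of_surjective_fderiv hφx I.convex_range I.isClosed_range
    I.nonempty_interior (φ.mapsTo.mono_right <| by
      simp [φ, ModelWithCorners.extendCoordChange, inter_assoc]) hφx'

theorem int_iff {M : Type} [TopologicalSpace M]
    (e : OpenPartialHomeomorph M (EuclideanHalfSpace 2)) {x : M} (hx : x ∈ e.source) :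
    e.extend (𝓡∂ 2) x ∈ interior (e.extend (𝓡∂ 2)).target ↔ 0 < (co e x) 0 := by
  have key : (co e x ∈ interior (range (𝓡∂ 2))) ↔ 0 < (co e x) 0 := by
    rw [interior_range_modelWithCornersEuclideanHalfSpace]; rfl
  rw [← key]
  constructor
  · intro h
    exact interior_mono (e.extend_target_subset_range) h
  · intro h
    exact e.mem_interior_extend_target (by simp [hx]) h

/-- the boundary in a chart -/
theorem stBd : StBd := by
  intro M _ _ _ e he x hx
  have h1 : (𝓡∂ 2).IsInteriorPoint x ↔ 0 < (co e x) 0 := by
    rw [ModelWithCorners.isInteriorPoint_iff, ← int_iff e hx]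
    have hc : chartAt (EuclideanHalfSpace 2) x ∈ IsManifold.maximalAtlas (𝓡∂ 2) ∞ M :=
      IsManifold.chart_mem_maximalAtlas x
    exact ⟨int_step hc he (mem_chart_source _ x) hx, int_step he hc hx (mem_chart_source _ x)⟩
  have h2 : 0 ≤ (co e x) 0 := by
    have : co e x ∈ range (𝓡∂ 2) := ⟨e x, by simp [co]⟩
    rw [range_modelWithCornersEuclideanHalfSpace] at this
    exact this
  have h3 : x ∈ (𝓡∂ 2).boundary M ↔ ¬ (𝓡∂ 2).IsInteriorPoint x := by
    rw [← ModelWithCorners.isBoundaryPoint_iff_not_isInteriorPoint]; rfl
  rw [h3, h1]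
  constructor
  · intro h; rw [h]; exact lt_irrefl _
  · intro h; exact le_antisymm (not_lt.mp h) h2

end Pool.Agent.Y878.FA
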