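import Pool.Agent.Y522.FA.Stm2

/-!
# Project FA: from Mathlib's Riemannian manifolds to charts with coframes
-/

set_option autoImplicit false

open Set Filter Topology Metric Function MeasureTheory Bundle
open scoped Manifold ContDiff Real NNReal
open Pool.Agent.Y522.FA

noncomputable section

namespace Pool.Agent.Y878.FA.BR

section top

variable {M : Type} [TopologicalSpace M] (e : OpenPartialHomeomorph M (EuclideanHalfSpace 2))

theorem img : co e '' e.source = (e.extend (𝓡∂ 2)).target := by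
  have h := (e.extend (𝓡∂ 2)).image_source_eq_target
  rw [e.extend_source] at h
  exact h

theorem img_open : ∃ O : Set E2, IsOpen O ∧ co e '' e.source = O ∩ {z | 0 ≤ z 0} := by
  refine ⟨(𝓡∂ 2).symm ⁻¹' e.target, e.open_target.preimage (𝓡∂ 2).continuous_symm, ?_⟩
  rw [img, e.extend_target, range_modelWithCornersEuclideanHalfSpace]

theorem left {x : M} (hx : x ∈ e.source) : pa e (co e x) = x :=
  e.extend_left_inv hx

theorem contco : ContinuousOn (co e) e.source := by
  have := e.continuousOn_extend (I := 𝓡∂ 2)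
  rw [e.extend_source] at this
  exact this

theorem contpa : ContinuousOn (pa e) (co e '' e.source) := by
  rw [img]
  exact e.continuousOn_extend_symm

end top

section riem

variable {M : Type} [TopologicalSpace M] [ChartedSpace (EuclideanHalfSpace 2) M]
  [RiemannianBundle (fun x : M => TangentSpace (𝓡∂ 2) x)]
  (e : OpenPartialHomeomorph M (EuclideanHalfSpace 2))

theorem gsym (z : E2) : gram e z 1 0 = gram e z 0 1 := by
  simp only [gram, Matrix.of_apply]
  exact real_inner_comm _ _

theorem gdet (z : E2) : (gram e z).det = gram e z 0 0 * gram e z 1 1 - gram e z 0 1 ^ 2 := by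
  rw [Matrix.det_fin_two, gsym]; ring

/-- the coframe -/
def Am (z : E2) : E2 →L[ℝ] E2 := chol (gram e z 0 0) (gram e z 0 1) (gram e z 1 1)

end riem

end Pool.Agent.Y878.FA.BR

namespace Pool.Agent.Y878.FA

open BR

/-- the bridge -/
theorem stBridge (h1 : StChol) (h2 : StGram) (h3 : StDst) (h4 : StTr) (h5 : StBd) :
    StBridge := by
  intro M _ _ _ _ _ _ _ _ _ μ b hO hμ hb
  obtain ⟨𝒜, hA, hcov, hpos⟩ := hO
  -- facts for a single chart
  have Adet : ∀ e ∈ IsManifold.maximalAtlas (𝓡∂ 2) ∞ M, ∀ z ∈ co e '' e.source,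
      (Am e z).det = √ (gram e z).det := by
    intro e he z hz
    have hg := (h2 M e he).2.2.1 z hz
    have := (h1.1 (gram e z 0 0) (gram e z 0 1) (gram e z 1 1) hg.1
      (by rw [← gdet]; exact hg.2)).1
    rw [gdet]
    exact this
  have Anorm : ∀ e ∈ IsManifold.maximalAtlas (𝓡∂ 2) ∞ M, ∀ z ∈ co e '' e.source, ∀ v,
      ‖tv e z v‖ = ‖Am e z v‖ := by
    intro e he z hz v
    have hg := (h2 M e he).2.2.1 z hz
    have h := (h1.1 (gram e z 0 0) (gram e z 0 1) (gram e z 1 1) hg.1
      (by rw [← gdet]; exact hg.2)).2 v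
    have h' := (h2 M e he).2.2.2 z hz v
    rw [← h] at h'
    exact (sq_eq_sq₀ (norm_nonneg _) (norm_nonneg _)).mp h'
  have Acont : ∀ e ∈ IsManifold.maximalAtlas (𝓡∂ 2) ∞ M,
      ContinuousOn (Am e) (co e '' e.source) := by
    intro e he
    have hg := (h2 M e he).1
    exact h1.2 _ _ _ _ (hg 0 0) (hg 0 1) (hg 1 1) (fun z hz => ((h2 M e he).2.2.1 z hz).1)
      (fun z hz => by rw [← gdet]; exact ((h2 M e he).2.2.1 z hz).2)
  choose c hc hxc using hcov
  obtain ⟨t, ht⟩ := isCompact_univ.elim_nhds_subcover (fun x => (c x).source)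
    (fun x _ => (c x).open_source.mem_nhds (hxc x))
  let en := t.equivFin
  let ch : Fin t.card → OpenPartialHomeomorph M (EuclideanHalfSpace 2) := fun i => c (en.symm i)
  have hch : ∀ i, ch i ∈ 𝒜 := fun i => hc _
  have hchm : ∀ i, ch i ∈ IsManifold.maximalAtlas (𝓡∂ 2) ∞ M := fun i => hA (hch i)
  refine ⟨{
    N := t.card
    U := fun i => (ch i).source
    φ := fun i => co (ch i)
    ψ := fun i => pa (ch i)
    A := fun i => Am (ch i)
    openU := fun i => (ch i).open_source
    cover := ?_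
    left := fun i x hx => left (ch i) hx
    contφ := fun i => contco (ch i)
    contψ := fun i => contpa (ch i)
    openT := fun i => img_open (ch i)
    bd := ?_
    detA := ?_
    contA := fun i => Acont _ (hchm i)
    dst := ?_
    tr := ?_
    area := ?_ }⟩
  · intro x
    have := ht.2 (mem_univ x)
    rw [mem_iUnion₂] at this
    obtain ⟨y, hy, hxy⟩ := this
    refine ⟨en ⟨y, hy⟩, ?_⟩
    simpa [ch] using hxy
  · intro i x hx
    rw [hb]
    exact h5 M (ch i) (hchm i) x hx
  · intro i z hz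
    rw [Adet _ (hchm i) z hz]
    exact Real.sqrt_pos.mpr ((h2 M _ (hchm i)).2.2.1 z hz).2
  · intro i z hz ε hε
    obtain ⟨O, hOo, hOe⟩ := img_open (ch i)
    have hzO : z ∈ O := by
      have : z ∈ O ∩ {z | 0 ≤ z 0} := by rw [← hOe]; exact hz
      exact this.1
    obtain ⟨δ1, hδ1, hb1⟩ := Metric.isOpen_iff.mp hOo z hzO
    have hcz := Acont _ (hchm i) z hz
    rw [Metric.continuousWithinAt_iff] at hcz
    obtain ⟨δ2, hδ2, hb2⟩ := hcz ε hε
    refine ⟨min δ1 δ2, lt_min hδ1 hδ2, ?_⟩
    intro w hw w' hw' hwz hwz'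
    have hconv : Convex ℝ (ball z (min δ1 δ2) ∩ {z : E2 | 0 ≤ z 0}) := by
      refine (convex_ball z _).inter ?_
      have := EuclideanHalfSpace.convex (n := 2)
      exact this
    have hwm : w ∈ ball z (min δ1 δ2) ∩ {z : E2 | 0 ≤ z 0} := by
      refine ⟨by rw [mem_ball, dist_eq_norm]; exact hwz, ?_⟩
      have : w ∈ O ∩ {z | 0 ≤ z 0} := by rw [← hOe]; exact hw
      exact this.2
    have hwm' : w' ∈ ball z (min δ1 δ2) ∩ {z : E2 | 0 ≤ z 0} := by
      refine ⟨by rw [mem_ball, dist_eq_norm]; exact hwz', ?_⟩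
      have : w' ∈ O ∩ {z | 0 ≤ z 0} := by rw [← hOe]; exact hw'
      exact this.2
    have hseg := hconv.segment_subset hwm hwm'
    have hsegT : segment ℝ w w' ⊆ co (ch i) '' (ch i).source := by
      intro y hy
      rw [hOe]
      exact ⟨hb1 (ball_subset_ball (min_le_left _ _) (hseg hy).1), (hseg hy).2⟩
    refine h3 M (ch i) (hchm i) w w' _ hsegT ?_
    intro y hy
    rw [Anorm _ (hchm i) y (hsegT hy)]
    have hyz : dist y z < δ2 := lt_of_lt_of_le (hseg hy).1 (min_le_right _ _)
    have hAd := hb2 (hsegT hy) hyz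
    rw [dist_eq_norm] at hAd
    calc ‖Am (ch i) y (w' - w)‖ = ‖Am (ch i) z (w' - w) +
          (Am (ch i) y - Am (ch i) z) (w' - w)‖ := by
            rw [_root_.sub_apply]; congr 1; abel
      _ ≤ ‖Am (ch i) z (w' - w)‖ + ‖(Am (ch i) y - Am (ch i) z) (w' - w)‖ := norm_add_le _ _
      _ ≤ ‖Am (ch i) z (w' - w)‖ + ε * ‖w' - w‖ := by
            gcongr
            exact (ContinuousLinearMap.le_opNorm _ _).trans
              (mul_le_mul_of_nonneg_right hAd.le (norm_nonneg _))
  · intro i j x hi hj hx0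
    obtain ⟨L, hL, hL', hdet⟩ := h4 M (ch i) (hchm i) (ch j) (hchm j) x hi hj hx0
    refine ⟨L, hL, ?_⟩
    have hLp : 0 < L.det := by
      have := hpos (ch i) (hch i) (ch j) (hch j) x hi hj
      rwa [hL'] at this
    rw [Adet _ (hchm i) _ (mem_image_of_mem _ hi), Adet _ (hchm j) _ (mem_image_of_mem _ hj), hdet,
      Real.sqrt_mul' _ (sq_nonneg _), Real.sqrt_sq hLp.le]
  · intro i B hB hBm
    rw [hμ (ch i) (hchm i) B hB hBm]
    have hm : MeasurableSet (co (ch i) '' B) := by
      refine hBm.image_of_continuousOn_injOn ((contco (ch i)).mono hB) ?_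
      intro x hx y hy hxy
      rw [← left (ch i) (hB hx), ← left (ch i) (hB hy), hxy]
    refine setLIntegral_congr_fun hm ?_
    rintro z ⟨x, hx, rfl⟩
    show ENNReal.ofReal _ = ENNReal.ofReal _
    rw [Adet _ (hchm i) _ (mem_image_of_mem _ (hB hx))]

end Pool.Agent.Y878.FA
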